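import Pool.Agent.H26.TR.Full

set_option autoImplicit false

/-!
MP_a46c6f_co, code form: the full state at `e` of the code of a critical pair on a permutation graph
can be chosen with an even number of parts (at least two).
-/

namespace Pool.Agent.H99.CT

open Pool.Agent.H98.Code Pool.Agent.H26.TR Finset

variable {V : Type} [Fintype V] [DecidableEq V]
variable {L : Submodule (ZMod 2) (V → K)} {e : V} {D : V → K}

/-- the parts of a full state `D` at `e` -/
structure Parts (L : Submodule (ZMod 2) (V → K)) (e : V) (D : V → K) (P : Finset (Finset V)) :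
    Prop where
  mem : ∀ M ∈ P, M ≠ ∅ ∧ e ∉ M ∧ pw D e M ∈ L
  dis : ∀ M ∈ P, ∀ N ∈ P, M ≠ N → Disjoint M N
  cov : ∀ v, v ≠ e → ∃ M ∈ P, v ∈ M
  sub : ∀ u, KD L D e u → ∀ M ∈ P, M ⊆ sup e u ∨ Disjoint M (sup e u)

theorem exists_parts (h : Hyp L e D) : ∃ P, Parts L e D P := by
  obtain ⟨P, h1, h2, h3, h4⟩ := h.decomp
  exact ⟨P, h1, h2, h3, h4⟩

theorem smul_z_cases (k : ℕ) : (k • z = 0 ∧ Even k) ∨ (k • z = z ∧ ¬ Even k) := by
  induction k with
  | zero => left; simp
  | succ k ih =>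
    rw [succ_nsmul]
    rcases ih with ⟨h1, h2⟩ | ⟨h1, h2⟩
    · right
      rw [h1, zero_add]
      exact ⟨rfl, by rw [Nat.even_add_one]; exact not_not.2 h2⟩
    · left
      rw [h1, K_add_self]
      exact ⟨rfl, by rw [Nat.even_add_one]; exact h2⟩

/-- if the total word of the state is `0` at `e`, the number of parts is even -/
theorem even_card (h : Hyp L e D) {P : Finset (Finset V)} (hP : Parts L e D P) {w : V → K}
    (hw : w ∈ L) (hwe : w e = 0) (hwD : ∀ v, v ≠ e → w v = D v) : Even P.card := by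
  have hS : (∑ M ∈ P, pw D e M) ∈ L := L.sum_mem fun M hM => (hP.mem M hM).2.2
  have hSv : ∀ v, v ≠ e → (∑ M ∈ P, pw D e M) v = D v := by
    intro v hv
    obtain ⟨M, hM, hvM⟩ := hP.cov v hv
    rw [Finset.sum_apply, Finset.sum_eq_single M]
    · simp [pw, hv, hvM]
    · intro N hN hne
      have : v ∉ N := fun hvN => (Finset.disjoint_left.1 (hP.dis M hM N hN (Ne.symm hne))) hvM hvN
      simp [pw, hv, this]
    · intro hM'
      exact absurd hM hM'
  have hSe : (∑ M ∈ P, pw D e M) e = P.card • z := by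
    rw [Finset.sum_apply]
    simp [pw]
  have h0 := h.noz (∑ M ∈ P, pw D e M + w) (L.add_mem hS hw) (by
    intro v hv
    rw [Pi.add_apply, hSv v hv, hwD v hv, K_add_self])
  rw [Pi.add_apply, hwe, add_zero, hSe] at h0
  rcases smul_z_cases P.card with h1 | h1
  · exact h1.2
  · exact absurd h1.1 h0

theorem even_part (h : Hyp L e D) (one : (fun _ => z) ∈ L) {M : Finset V}
    (heM : e ∉ M) (hM : pw D e M ∈ L) : Even M.card := by
  have h0 := h.iso _ hM _ one
  have h1 : form (pw D e M) (fun _ => z) = (M.card : ZMod 2) := by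
    unfold form
    have h2 : ∀ v, kf (pw D e M v) z = if v ∈ M then 1 else 0 := by
      intro v
      have h3 : ∀ a : K, kf a z = a.1 := by decide
      rw [h3]
      unfold pw
      by_cases hv : v = e
      · rw [if_pos hv, if_neg (by rw [hv]; exact heM)]
        rfl
      · rw [if_neg hv]
        by_cases hvM : v ∈ M
        · rw [if_pos hvM, if_pos hvM, h.letter v hv]
        · rw [if_neg hvM, if_neg hvM]
          rfl
    rw [Finset.sum_congr rfl fun v _ => h2 v, Finset.sum_boole]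
    simp
  rw [h1] at h0
  exact (ZMod.natCast_eq_zero_iff_even).1 h0

/-- a word at which the state is totally covered and `0` at `e` can be found for `D₀` or `D₀ + z` -/
theorem exists_even (iso : ∀ u ∈ L, ∀ w ∈ L, form u w = 0) (one : (fun _ => z) ∈ L)
    (zon : ∀ u ∈ L, ZOnly u → u = 0 ∨ ∀ v, u v = z) (crit : Critical L)
    (hV : 2 ≤ Fintype.card V) {D₀ : V → K}
    (letter : ∀ v, v ≠ e → (D₀ v).1 = 1)
    (full : ∀ v, v ≠ e → ∃ u, KD L D₀ e u ∧ u v ≠ 0) :
    ∃ D : V → K, Hyp L e D ∧ ∃ w ∈ L, w e = 0 ∧ ∀ v, v ≠ e → w v = D v := by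
  have zne : z ≠ 0 := by decide
  have noz : ∀ u ∈ L, (∀ v, v ≠ e → u v = 0) → u e ≠ z := by
    intro u hu h1 h2
    obtain ⟨a, ha⟩ := Fintype.exists_ne_of_one_lt_card (by omega) e
    rcases zon u hu (by
      intro v
      by_cases hv : v = e
      · rw [hv, h2]; rfl
      · rw [h1 v hv]; rfl) with h3 | h3
    · rw [h3] at h2
      exact zne h2.symm
    · have := h3 a
      rw [h1 a ha] at this
      exact zne this.symm
  have hcritAt : CritAt L e := fun u hu h0 hz _ => crit u hu h0 hz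
  have h : Hyp L e D₀ := ⟨iso, noz, hcritAt, letter, full⟩
  obtain ⟨t, ht, htD⟩ := h.exists_total
  rcases ht.2.2 with h0 | hz
  · exact ⟨D₀, h, t, ht.1, h0, htD⟩
  · have hlz : ∀ a : K, a.1 = 1 → a + z ≠ 0 ∧ a + z ≠ z ∧ (a + z).1 = 1 := by decide
    set w : V → K := t + (fun _ => z) with hw
    have hwL : w ∈ L := L.add_mem ht.1 one
    have hwe : w e = 0 := by
      rw [hw, Pi.add_apply, hz, K_add_self]
    have hwv : ∀ v, v ≠ e → w v = D₀ v + z := by
      intro v hv
      rw [hw, Pi.add_apply, htD v hv]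
    obtain ⟨a, ha⟩ := Fintype.exists_ne_of_one_lt_card (by omega : 1 < Fintype.card V) e
    have hw0 : w ≠ 0 := by
      intro h1
      have h2 := congrFun h1 a
      rw [hwv a ha] at h2
      exact (hlz _ (letter a ha)).1 h2
    have hwz : ZFree w := by
      intro v
      by_cases hv : v = e
      · rw [hv, hwe]
        exact zne.symm
      · rw [hwv v hv]
        exact (hlz _ (letter v hv)).2.1
    obtain ⟨g, c₁, hc₁, c₂, hc₂, hsum, hg₁, hg₂, hdis⟩ := crit w hwL hw0 hwz
    have hge : g = e := by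
      by_contra hne
      have h1 := congrFun hsum g
      rw [Pi.add_apply, hg₁, hg₂, K_add_self, hwv g hne] at h1
      exact (hlz _ (letter g hne)).1 h1.symm
    subst hge
    have hD : ∀ v, v ≠ g → (D₀ v + z).1 = 1 := fun v hv => (hlz _ (letter v hv)).2.2
    have key : ∀ c c' : V → K, c + c' = w → (∀ v, v ≠ g → c v = 0 ∨ c' v = 0) → c ∈ L → c g = z →
        KD L (fun v => D₀ v + z) g c := by
      intro c c' h1 h2 h3 h4
      refine ⟨h3, ?_, Or.inr h4⟩
      intro v hv
      rcases h2 v hv with h5 | h5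
      · exact Or.inl h5
      · right
        have h6 := congrFun h1 v
        rw [Pi.add_apply, h5, add_zero, hwv v hv] at h6
        exact h6
    have k1 := key c₁ c₂ hsum hdis hc₁ hg₁
    have k2 := key c₂ c₁ (by rw [add_comm]; exact hsum) (fun v hv => (hdis v hv).symm) hc₂ hg₂
    refine ⟨fun v => D₀ v + z, ⟨iso, noz, hcritAt, hD, ?_⟩, w, hwL, hwe, hwv⟩
    intro v hv
    by_cases h1 : c₁ v = 0
    · refine ⟨c₂, k2, ?_⟩
      intro h2
      have h3 := congrFun hsum v
      rw [Pi.add_apply, h1, h2, add_zero, hwv v hv] at h3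
      exact (hlz _ (letter v hv)).1 h3.symm
    · exact ⟨c₁, k1, h1⟩

/-- **Start.** A full state at `e` gives a full state at `e` with an even number `≥ 2` of parts, all
of even size, one of them of maximal size. -/
theorem start (iso : ∀ u ∈ L, ∀ w ∈ L, form u w = 0) (one : (fun _ => z) ∈ L)
    (zon : ∀ u ∈ L, ZOnly u → u = 0 ∨ ∀ v, u v = z) (crit : Critical L)
    (hV : 2 ≤ Fintype.card V) {D₀ : V → K}
    (letter : ∀ v, v ≠ e → (D₀ v).1 = 1)
    (full : ∀ v, v ≠ e → ∃ u, KD L D₀ e u ∧ u v ≠ 0) :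
    ∃ (D : V → K) (P : Finset (Finset V)), Hyp L e D ∧ Parts L e D P ∧ Even P.card ∧
      2 ≤ P.card ∧ (∀ M ∈ P, Even M.card) ∧
      ∃ M₀ ∈ P, (∀ M ∈ P, M.card ≤ M₀.card) ∧ ∃ M ∈ P, M ≠ M₀ := by
  obtain ⟨D, h, w, hwL, hwe, hwD⟩ := exists_even iso one zon crit hV letter full
  obtain ⟨P, hP⟩ := exists_parts h
  have hev := even_card h hP hwL hwe hwD
  obtain ⟨a, ha⟩ := Fintype.exists_ne_of_one_lt_card (by omega : 1 < Fintype.card V) e
  obtain ⟨M, hM, -⟩ := hP.cov a ha
  have hpos : 0 < P.card := Finset.card_pos.2 ⟨M, hM⟩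
  have h2 : 2 ≤ P.card := by
    obtain ⟨m, hm⟩ := hev
    omega
  obtain ⟨M₀, hM₀, hmax⟩ := Finset.exists_max_image P (fun M => M.card) ⟨M, hM⟩
  obtain ⟨N, hN, hne⟩ := Finset.exists_mem_ne (by omega : 1 < P.card) M₀
  exact ⟨D, P, h, hP, hev, h2, fun M hM => even_part h one (hP.mem M hM).2.1 (hP.mem M hM).2.2,
    M₀, hM₀, hmax, N, hN, hne⟩

end Pool.Agent.H99.CT
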